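import Mathlib

set_option autoImplicit false
set_option maxRecDepth 100000

namespace Pool.Agent.Results.MP_8ef15a_nt.Three

/-- `n` is antipalindromic in base 3: with digits `u_0, …, u_k`, `u_i + u_{k-i} = 2`. -/
def Antipal (n : ℕ) : Prop :=
  0 < n ∧ ∀ i j : ℕ, i + j + 1 = (Nat.digits 3 n).length →
    (Nat.digits 3 n).getD i 0 + (Nat.digits 3 n).getD j 0 = 2

/-- Values of antipalindromic digit strings of length `m` (leading zeros allowed). -/
inductive W : ℕ → ℕ → Prop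
  | zero : W 0 0
  | one : W 1 1
  | step (m v u : ℕ) : W m v → u ≤ 2 → W (m + 2) ((2 - u) + 3 * v + u * 3 ^ (m + 1))

def AL (l : List ℕ) : Prop :=
  (∀ d ∈ l, d < 3) ∧ ∀ i j : ℕ, i + j + 1 = l.length → l.getD i 0 + l.getD j 0 = 2

lemma AL_step (l : List ℕ) (u : ℕ) (hu : u ≤ 2) (h : AL l) : AL ((2 - u) :: (l ++ [u])) := by
  refine ⟨?_, ?_⟩
  · intro d hd
    simp only [List.mem_cons, List.mem_append, List.not_mem_nil, or_false] at hd
    rcases hd with rfl | hd | rfl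
    · omega
    · exact h.1 d hd
    · omega
  · intro i j hij
    simp only [List.length_cons, List.length_append, List.length_nil] at hij
    have last : (l ++ [u]).getD l.length 0 = u := by simp
    rcases i with _ | i <;> rcases j with _ | j
    · omega
    · obtain rfl : j = l.length := by omega
      simp only [List.getD_cons_zero, List.getD_cons_succ, last]; omega
    · obtain rfl : i = l.length := by omega
      simp only [List.getD_cons_zero, List.getD_cons_succ, last]; omega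
    · simp only [List.getD_cons_succ]
      rw [List.getD_append _ _ _ _ (by omega), List.getD_append _ _ _ _ (by omega)]
      exact h.2 i j (by omega)

lemma ofd_step (l : List ℕ) (u : ℕ) :
    Nat.ofDigits 3 ((2 - u) :: (l ++ [u])) =
      (2 - u) + 3 * Nat.ofDigits 3 l + u * 3 ^ (l.length + 1) := by
  rw [Nat.ofDigits_cons, Nat.ofDigits_append, Nat.ofDigits_singleton]
  ring

lemma W_list {m v : ℕ} (h : W m v) : ∃ l : List ℕ, l.length = m ∧ AL l ∧ Nat.ofDigits 3 l = v := by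
  induction h with
  | zero => exact ⟨[], rfl, ⟨by simp, by simp⟩, rfl⟩
  | one =>
    refine ⟨[1], rfl, ⟨by simp, ?_⟩, rfl⟩
    intro i j hij
    simp only [List.length_singleton] at hij
    obtain rfl : i = 0 := by omega
    obtain rfl : j = 0 := by omega
    rfl
  | step m v u _ hu ih =>
    obtain ⟨l, rfl, hl, rfl⟩ := ih
    exact ⟨_, by simp, AL_step l u hu hl, ofd_step l u⟩

lemma W_par {m v : ℕ} (h : W m v) : v % 2 = m % 2 := by
  induction h with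
  | zero => rfl
  | one => rfl
  | step m v u _ hu ih =>
    have h3 : 3 ^ (m + 1) % 2 = 1 := by rw [Nat.pow_mod]; simp
    interval_cases u <;> omega

lemma ap_top {m v u : ℕ} (h : W m v) (h1 : 1 ≤ u) (h2 : u ≤ 2) :
    Antipal ((2 - u) + 3 * v + u * 3 ^ (m + 1)) := by
  obtain ⟨l, rfl, hl, rfl⟩ := W_list h
  have hA := AL_step l u h2 hl
  have hd : Nat.digits 3 (Nat.ofDigits 3 ((2 - u) :: (l ++ [u]))) = (2 - u) :: (l ++ [u]) := by
    apply Nat.digits_ofDigits 3 (by norm_num) _ hA.1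
    intro hne
    have : ((2 - u) :: (l ++ [u])).getLast hne = u := by simp
    omega
  refine ⟨by positivity, ?_⟩
  rw [← ofd_step, hd]
  exact hA.2

lemma ap_one : Antipal 1 := by
  refine ⟨one_pos, ?_⟩
  intro i j hij
  have : Nat.digits 3 1 = [1] := by simp
  rw [this] at hij ⊢
  simp only [List.length_singleton] at hij
  obtain rfl : i = 0 := by omega
  obtain rfl : j = 0 := by omega
  rfl

/-! ### Bit-mask sumsets -/

def force (Y : ℕ) (f : ℕ → ℕ) : ℕ := Nat.casesOn Y (f 0) fun n => f (n + 1)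

lemma force_eq (Y : ℕ) (f : ℕ → ℕ) : force Y f = f Y := by cases Y <;> rfl

def addW : ℕ → ℕ → ℕ → ℕ
  | 0, _, X => X
  | 1, s, X => X <<< s
  | m + 2, s, X => force (addW m (3 * s) X) fun Y =>
      (Y <<< (2 * s)) ||| (Y <<< (s + s * 3 ^ (m + 1))) ||| (Y <<< (2 * s * 3 ^ (m + 1)))

lemma tb_shift {Y a n : ℕ} (h : (Y <<< a).testBit n = true) :
    ∃ y, Y.testBit y = true ∧ n = y + a := by
  rw [Nat.testBit_shiftLeft] at h
  simp only [ge_iff_le, Bool.and_eq_true, decide_eq_true_eq] at h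
  exact ⟨n - a, h.2, by omega⟩

lemma addW_sound : ∀ (m s X n : ℕ), (addW m s X).testBit n = true →
    ∃ x v, X.testBit x = true ∧ W m v ∧ n = x + s * v
  | 0, _, _, n, h => ⟨n, 0, h, W.zero, by simp⟩
  | 1, s, X, n, h => by
    obtain ⟨y, hy, rfl⟩ := tb_shift h
    exact ⟨y, 1, hy, W.one, by simp⟩
  | m + 2, s, X, n, h => by
    rw [addW, force_eq] at h
    simp only [Nat.testBit_or, Bool.or_eq_true] at h
    rcases h with (h | h) | h
    · obtain ⟨y, hy, rfl⟩ := tb_shift h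
      obtain ⟨x, v, hx, hv, rfl⟩ := addW_sound m _ X y hy
      exact ⟨x, _, hx, W.step m v 0 hv (by omega), by ring⟩
    · obtain ⟨y, hy, rfl⟩ := tb_shift h
      obtain ⟨x, v, hx, hv, rfl⟩ := addW_sound m _ X y hy
      exact ⟨x, _, hx, W.step m v 1 hv (by omega), by ring⟩
    · obtain ⟨y, hy, rfl⟩ := tb_shift h
      obtain ⟨x, v, hx, hv, rfl⟩ := addW_sound m _ X y hy
      exact ⟨x, _, hx, W.step m v 2 hv (by omega), by ring⟩

lemma tb_one {x : ℕ} (h : Nat.testBit 1 x = true) : x = 0 := by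
  simpa [Nat.testBit_one_eq_true_iff_self_eq_zero] using h

lemma full_bits {Y k n : ℕ} (h : Y % 2 ^ k = 2 ^ k - 1) (hn : n < k) : Y.testBit n = true := by
  have h1 : (Y % 2 ^ k).testBit n = true := by
    rw [h, Nat.testBit_two_pow_sub_one]; simpa using hn
  rw [Nat.testBit_mod_two_pow] at h1
  simp only [Bool.and_eq_true] at h1
  exact h1.2

/-! ### The middle problem -/

def Good (a b lo hi m : ℕ) : Prop :=
  ∀ N : ℕ, (N + a + b + m) % 2 = 0 → lo * 3 ^ m ≤ 10 * N → 10 * N ≤ hi * 3 ^ m →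
    ∃ x y z, W (m + a) x ∧ W (m + b) y ∧ W m z ∧ N = x + y + z

def chk (a b lo hi m : ℕ) : Bool :=
  force (addW (m + a) 1 (addW (m + b) 1 (addW m 1 1))) (fun X =>
    ((X ||| (X <<< 1)) >>> (lo * 3 ^ m / 10)) % 2 ^ (hi * 3 ^ m / 10 + 1 - lo * 3 ^ m / 10)) ==
    2 ^ (hi * 3 ^ m / 10 + 1 - lo * 3 ^ m / 10) - 1

lemma good_of_chk {a b lo hi m : ℕ} (h : chk a b lo hi m = true) : Good a b lo hi m := by
  intro N hp h1 h2
  unfold chk at h
  rw [force_eq, beq_iff_eq] at h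
  have key : ∀ n, (addW (m + a) 1 (addW (m + b) 1 (addW m 1 1))).testBit n = true →
      ∃ x y z, W (m + a) x ∧ W (m + b) y ∧ W m z ∧ n = x + y + z := by
    intro n hn
    obtain ⟨n1, x, h1, hx, rfl⟩ := addW_sound _ _ _ _ hn
    obtain ⟨n2, y, h2, hy, rfl⟩ := addW_sound _ _ _ _ h1
    obtain ⟨n3, z, h3, hz, rfl⟩ := addW_sound _ _ _ _ h2
    obtain rfl := tb_one h3
    exact ⟨x, y, z, hx, hy, hz, by ring⟩
  have hb := full_bits (n := N - lo * 3 ^ m / 10) h (by omega)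
  rw [Nat.testBit_shiftRight, show lo * 3 ^ m / 10 + (N - lo * 3 ^ m / 10) = N by omega,
    Nat.testBit_or, Bool.or_eq_true] at hb
  rcases hb with hb | hb
  · exact key N hb
  · obtain ⟨n, hn, rfl⟩ := tb_shift hb
    obtain ⟨x, y, z, hx, hy, hz, rfl⟩ := key n hn
    have := W_par hx
    have := W_par hy
    have := W_par hz
    omega

def St (A B lo hi t N P : ℕ) : Prop :=
  ∃ u1 u2 u3 N' : ℕ, t ≤ u1 ∧ u1 ≤ 2 ∧ t ≤ u2 ∧ u2 ≤ 2 ∧ t ≤ u3 ∧ u3 ≤ 2 ∧
    N + u1 + u2 + u3 = 6 + 3 * N' + 3 * (A * u1 + B * u2 + u3) * P ∧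
    lo * P ≤ 10 * N' ∧ 10 * N' ≤ hi * P

lemma use_St {a b lo hi m t N : ℕ} (hG : Good a b lo hi m) (hp : (N + a + b + m) % 2 = 0)
    (h : St (3 ^ a) (3 ^ b) lo hi t N (3 ^ m)) :
    ∃ x y z u1 u2 u3, W (m + a) x ∧ W (m + b) y ∧ W m z ∧
      t ≤ u1 ∧ u1 ≤ 2 ∧ t ≤ u2 ∧ u2 ≤ 2 ∧ t ≤ u3 ∧ u3 ≤ 2 ∧
      N = ((2 - u1) + 3 * x + u1 * 3 ^ (m + a + 1)) + ((2 - u2) + 3 * y + u2 * 3 ^ (m + b + 1)) +
        ((2 - u3) + 3 * z + u3 * 3 ^ (m + 1)) := by
  obtain ⟨u1, u2, u3, N', a1, a2, b1, b2, c1, c2, hE, l1, l2⟩ := h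
  have e : 3 * (3 ^ a * u1 + 3 ^ b * u2 + u3) * 3 ^ m =
      u1 * 3 ^ (m + a + 1) + u2 * 3 ^ (m + b + 1) + u3 * 3 ^ (m + 1) := by ring
  rw [e] at hE
  have par : ∀ u k : ℕ, (u * 3 ^ k) % 2 = u % 2 := by
    intro u k
    rw [Nat.mul_mod, Nat.pow_mod]; simp
  have p1 := par u1 (m + a + 1)
  have p2 := par u2 (m + b + 1)
  have p3 := par u3 (m + 1)
  obtain ⟨x, y, z, hx, hy, hz, rfl⟩ := hG N' (by omega) l1 l2
  exact ⟨x, y, z, u1, u2, u3, hx, hy, hz, a1, a2, b1, b2, c1, c2, by omega⟩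

lemma pow_big {m : ℕ} (h : 5 ≤ m) : 100 ≤ 3 ^ m :=
  le_trans (by norm_num) (Nat.pow_le_pow_right (by norm_num) h)

lemma good_all {a b lo hi m0 : ℕ} (h5 : 5 ≤ m0) (h0 : chk a b lo hi m0 = true)
    (h1 : chk a b lo hi (m0 + 1) = true)
    (hs : ∀ N P : ℕ, 100 ≤ P → lo * 9 * P ≤ 10 * N → 10 * N ≤ hi * 9 * P →
      St (3 ^ a) (3 ^ b) lo hi 0 N P) : ∀ k, Good a b lo hi (m0 + k)
  | 0 => good_of_chk h0
  | 1 => good_of_chk h1
  | k + 2 => by
    intro N hp l1 l2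
    have hG := good_all h5 h0 h1 hs k
    have e : ∀ c : ℕ, c * 3 ^ (m0 + (k + 2)) = c * 9 * 3 ^ (m0 + k) := by intro c; ring
    rw [e] at l1 l2
    obtain ⟨x, y, z, u1, u2, u3, hx, hy, hz, -, a2, -, b2, -, c2, hE⟩ :=
      use_St hG (by omega) (hs N _ (pow_big (by omega)) l1 l2)
    refine ⟨_, _, _, ?_, ?_, ?_, hE⟩
    · rw [show m0 + (k + 2) + a = m0 + k + a + 2 by ring]; exact W.step _ _ _ hx a2
    · rw [show m0 + (k + 2) + b = m0 + k + b + 2 by ring]; exact W.step _ _ _ hy b2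
    · exact W.step _ _ _ hz c2

def Sum3 (N : ℕ) : Prop := ∃ x y z, Antipal x ∧ Antipal y ∧ Antipal z ∧ N = x + y + z

lemma top_St {a b lo hi m N : ℕ} (hG : Good a b lo hi m) (hp : (N + a + b + m) % 2 = 0)
    (h : St (3 ^ a) (3 ^ b) lo hi 1 N (3 ^ m)) : Sum3 N := by
  obtain ⟨x, y, z, u1, u2, u3, hx, hy, hz, a1, a2, b1, b2, c1, c2, hE⟩ := use_St hG hp h
  exact ⟨_, _, _, ap_top hx a1 a2, ap_top hy b1 b2, ap_top hz c1 c2, hE⟩

lemma step_a (N P : ℕ) (hP : 100 ≤ P) (h1 : 495 * P ≤ 10 * N) (h2 : 10 * N ≤ 22275 * P) :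
    St 243 9 55 2475 0 N P := by
  have hr : N % 3 = 0 ∨ N % 3 = 1 ∨ N % 3 = 2 := by omega
  rcases hr with hr | hr | hr
  · by_cases h : 10 * N ≤ 7424 * P
    · exact ⟨0, 0, 0, (N - 6 - 0 * P) / 3, by omega⟩
    clear h1
    have h1 := h
    clear h
    by_cases h : 10 * N ≤ 7994 * P
    · exact ⟨0, 2, 1, (N - 3 - 57 * P) / 3, by omega⟩
    clear h1
    have h1 := h
    clear h
    by_cases h : 10 * N ≤ 15014 * P
    · exact ⟨1, 1, 1, (N - 3 - 759 * P) / 3, by omega⟩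
    clear h1
    have h1 := h
    clear h
    by_cases h : 10 * N ≤ 22034 * P
    · exact ⟨2, 0, 1, (N - 3 - 1461 * P) / 3, by omega⟩
    clear h1
    have h1 := h
    clear h
    exact ⟨2, 2, 2, (N - 0 - 1518 * P) / 3, by omega⟩
  · by_cases h : 10 * N ≤ 7724 * P
    · exact ⟨0, 1, 1, (N - 4 - 30 * P) / 3, by omega⟩
    clear h1
    have h1 := h
    clear h
    by_cases h : 10 * N ≤ 14744 * P
    · exact ⟨1, 0, 1, (N - 4 - 732 * P) / 3, by omega⟩
    clear h1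
    have h1 := h
    clear h
    by_cases h : 10 * N ≤ 15314 * P
    · exact ⟨1, 2, 2, (N - 1 - 789 * P) / 3, by omega⟩
    clear h1
    have h1 := h
    clear h
    exact ⟨2, 1, 2, (N - 1 - 1491 * P) / 3, by omega⟩
  · by_cases h : 10 * N ≤ 7694 * P
    · exact ⟨0, 1, 0, (N - 5 - 27 * P) / 3, by omega⟩
    clear h1
    have h1 := h
    clear h
    by_cases h : 10 * N ≤ 14714 * P
    · exact ⟨1, 0, 0, (N - 5 - 729 * P) / 3, by omega⟩
    clear h1
    have h1 := h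
    clear h
    by_cases h : 10 * N ≤ 15284 * P
    · exact ⟨1, 2, 1, (N - 2 - 786 * P) / 3, by omega⟩
    clear h1
    have h1 := h
    clear h
    exact ⟨2, 1, 1, (N - 2 - 1488 * P) / 3, by omega⟩

lemma step_b (N P : ℕ) (hP : 100 ≤ P) (h1 : 162 * P ≤ 10 * N) (h2 : 10 * N ≤ 3168 * P) :
    St 27 9 18 352 0 N P := by
  have hr : N % 3 = 0 ∨ N % 3 = 1 ∨ N % 3 = 2 := by omega
  rcases hr with hr | hr | hr
  · by_cases h : 10 * N ≤ 1055 * P
    · exact ⟨0, 0, 0, (N - 6 - 0 * P) / 3, by omega⟩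
    clear h1
    have h1 := h
    clear h
    by_cases h : 10 * N ≤ 1925 * P
    · exact ⟨1, 0, 2, (N - 3 - 87 * P) / 3, by omega⟩
    clear h1
    have h1 := h
    clear h
    by_cases h : 10 * N ≤ 2705 * P
    · exact ⟨2, 0, 1, (N - 3 - 165 * P) / 3, by omega⟩
    clear h1
    have h1 := h
    clear h
    exact ⟨2, 2, 2, (N - 0 - 222 * P) / 3, by omega⟩
  · by_cases h : 10 * N ≤ 1115 * P
    · exact ⟨0, 0, 2, (N - 4 - 6 * P) / 3, by omega⟩
    clear h1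
    have h1 := h
    clear h
    by_cases h : 10 * N ≤ 1895 * P
    · exact ⟨1, 0, 1, (N - 4 - 84 * P) / 3, by omega⟩
    clear h1
    have h1 := h
    clear h
    by_cases h : 10 * N ≤ 2675 * P
    · exact ⟨2, 0, 0, (N - 4 - 162 * P) / 3, by omega⟩
    clear h1
    have h1 := h
    clear h
    exact ⟨2, 2, 1, (N - 1 - 219 * P) / 3, by omega⟩
  · by_cases h : 10 * N ≤ 1085 * P
    · exact ⟨0, 0, 1, (N - 5 - 3 * P) / 3, by omega⟩
    clear h1
    have h1 := h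
    clear h
    by_cases h : 10 * N ≤ 1865 * P
    · exact ⟨1, 0, 0, (N - 5 - 81 * P) / 3, by omega⟩
    clear h1
    have h1 := h
    clear h
    by_cases h : 10 * N ≤ 2735 * P
    · exact ⟨2, 0, 2, (N - 2 - 168 * P) / 3, by omega⟩
    clear h1
    have h1 := h
    clear h
    exact ⟨2, 2, 0, (N - 2 - 216 * P) / 3, by omega⟩

lemma step_c (N P : ℕ) (hP : 100 ≤ P) (h1 : 198 * P ≤ 10 * N) (h2 : 10 * N ≤ 7452 * P) :
    St 81 3 22 828 0 N P := by
  have hr : N % 3 = 0 ∨ N % 3 = 1 ∨ N % 3 = 2 := by omega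
  rcases hr with hr | hr | hr
  · by_cases h : 10 * N ≤ 2483 * P
    · exact ⟨0, 0, 0, (N - 6 - 0 * P) / 3, by omega⟩
    clear h1
    have h1 := h
    clear h
    by_cases h : 10 * N ≤ 2693 * P
    · exact ⟨0, 2, 1, (N - 3 - 21 * P) / 3, by omega⟩
    clear h1
    have h1 := h
    clear h
    by_cases h : 10 * N ≤ 5093 * P
    · exact ⟨1, 2, 0, (N - 3 - 261 * P) / 3, by omega⟩
    clear h1
    have h1 := h
    clear h
    by_cases h : 10 * N ≤ 7433 * P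
    · exact ⟨2, 1, 0, (N - 3 - 495 * P) / 3, by omega⟩
    clear h1
    have h1 := h
    clear h
    exact ⟨2, 2, 2, (N - 0 - 510 * P) / 3, by omega⟩
  · by_cases h : 10 * N ≤ 2603 * P
    · exact ⟨0, 1, 1, (N - 4 - 12 * P) / 3, by omega⟩
    clear h1
    have h1 := h
    clear h
    by_cases h : 10 * N ≤ 5003 * P
    · exact ⟨1, 1, 0, (N - 4 - 252 * P) / 3, by omega⟩
    clear h1
    have h1 := h
    clear h
    by_cases h : 10 * N ≤ 7343 * P
    · exact ⟨2, 0, 0, (N - 4 - 486 * P) / 3, by omega⟩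
    clear h1
    have h1 := h
    clear h
    exact ⟨2, 2, 1, (N - 1 - 507 * P) / 3, by omega⟩
  · by_cases h : 10 * N ≤ 2573 * P
    · exact ⟨0, 1, 0, (N - 5 - 9 * P) / 3, by omega⟩
    clear h1
    have h1 := h
    clear h
    by_cases h : 10 * N ≤ 4913 * P
    · exact ⟨1, 0, 0, (N - 5 - 243 * P) / 3, by omega⟩
    clear h1
    have h1 := h
    clear h
    by_cases h : 10 * N ≤ 5123 * P
    · exact ⟨1, 2, 1, (N - 2 - 264 * P) / 3, by omega⟩
    clear h1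
    have h1 := h
    clear h
    exact ⟨2, 2, 0, (N - 2 - 504 * P) / 3, by omega⟩

lemma step_d (N P : ℕ) (hP : 100 ≤ P) (h1 : 99 * P ≤ 10 * N) (h2 : 10 * N ≤ 1071 * P) :
    St 9 3 11 119 0 N P := by
  have hr : N % 3 = 0 ∨ N % 3 = 1 ∨ N % 3 = 2 := by omega
  rcases hr with hr | hr | hr
  · by_cases h : 10 * N ≤ 356 * P
    · exact ⟨0, 0, 0, (N - 6 - 0 * P) / 3, by omega⟩
    clear h1
    have h1 := h
    clear h
    by_cases h : 10 * N ≤ 566 * P
    · exact ⟨0, 2, 1, (N - 3 - 21 * P) / 3, by omega⟩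
    clear h1
    have h1 := h
    clear h
    by_cases h : 10 * N ≤ 806 * P
    · exact ⟨1, 2, 0, (N - 3 - 45 * P) / 3, by omega⟩
    clear h1
    have h1 := h
    clear h
    by_cases h : 10 * N ≤ 986 * P
    · exact ⟨2, 1, 0, (N - 3 - 63 * P) / 3, by omega⟩
    clear h1
    have h1 := h
    clear h
    exact ⟨2, 2, 2, (N - 0 - 78 * P) / 3, by omega⟩
  · by_cases h : 10 * N ≤ 416 * P
    · exact ⟨0, 0, 2, (N - 4 - 6 * P) / 3, by omega⟩
    clear h1
    have h1 := h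
    clear h
    by_cases h : 10 * N ≤ 716 * P
    · exact ⟨1, 1, 0, (N - 4 - 36 * P) / 3, by omega⟩
    clear h1
    have h1 := h
    clear h
    by_cases h : 10 * N ≤ 896 * P
    · exact ⟨2, 0, 0, (N - 4 - 54 * P) / 3, by omega⟩
    clear h1
    have h1 := h
    clear h
    exact ⟨2, 2, 1, (N - 1 - 75 * P) / 3, by omega⟩
  · by_cases h : 10 * N ≤ 386 * P
    · exact ⟨0, 0, 1, (N - 5 - 3 * P) / 3, by omega⟩
    clear h1
    have h1 := h
    clear h
    by_cases h : 10 * N ≤ 626 * P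
    · exact ⟨1, 0, 0, (N - 5 - 27 * P) / 3, by omega⟩
    clear h1
    have h1 := h
    clear h
    by_cases h : 10 * N ≤ 836 * P
    · exact ⟨1, 2, 1, (N - 2 - 48 * P) / 3, by omega⟩
    clear h1
    have h1 := h
    clear h
    exact ⟨2, 2, 0, (N - 2 - 72 * P) / 3, by omega⟩

lemma top0 (N P : ℕ) (hP : 100 ≤ P) (h1 : 8748 * P ≤ 10 * N) (h2 : 10 * N ≤ 14216 * P) :
    St 243 9 55 2475 1 N P := by
  have hr : N % 3 = 0 ∨ N % 3 = 1 ∨ N % 3 = 2 := by omega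
  rcases hr with hr | hr | hr
  · exact ⟨1, 1, 1, (N - 3 - 759 * P) / 3, by omega⟩
  · exact ⟨1, 2, 2, (N - 1 - 789 * P) / 3, by omega⟩
  · exact ⟨1, 2, 1, (N - 2 - 786 * P) / 3, by omega⟩

lemma top1 (N P : ℕ) (hP : 100 ≤ P) (h1 : 1579 * P ≤ 10 * N) (h2 : 10 * N ≤ 1944 * P) :
    St 27 9 18 352 1 N P := by
  have hr : N % 3 = 0 ∨ N % 3 = 1 ∨ N % 3 = 2 := by omega
  rcases hr with hr | hr | hr
  · exact ⟨1, 1, 1, (N - 3 - 111 * P) / 3, by omega⟩
  · exact ⟨1, 2, 2, (N - 1 - 141 * P) / 3, by omega⟩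
  · exact ⟨1, 2, 1, (N - 2 - 138 * P) / 3, by omega⟩

lemma top2 (N P : ℕ) (hP : 100 ≤ P) (h1 : 17496 * P ≤ 10 * N) (h2 : 10 * N ≤ 21433 * P) :
    St 243 9 55 2475 1 N P := by
  have hr : N % 3 = 0 ∨ N % 3 = 1 ∨ N % 3 = 2 := by omega
  rcases hr with hr | hr | hr
  · exact ⟨2, 2, 2, (N - 0 - 1518 * P) / 3, by omega⟩
  · exact ⟨2, 2, 1, (N - 1 - 1515 * P) / 3, by omega⟩
  · exact ⟨2, 1, 1, (N - 2 - 1488 * P) / 3, by omega⟩

lemma top3 (N P : ℕ) (hP : 100 ≤ P) (h1 : 2381 * P ≤ 10 * N) (h2 : 10 * N ≤ 2868 * P) :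
    St 27 9 18 352 1 N P := by
  have hr : N % 3 = 0 ∨ N % 3 = 1 ∨ N % 3 = 2 := by omega
  rcases hr with hr | hr | hr
  · exact ⟨2, 2, 2, (N - 0 - 222 * P) / 3, by omega⟩
  · exact ⟨2, 2, 1, (N - 1 - 219 * P) / 3, by omega⟩
  · exact ⟨2, 1, 1, (N - 2 - 192 * P) / 3, by omega⟩

lemma top4 (N P : ℕ) (hP : 100 ≤ P) (h1 : 2867 * P ≤ 10 * N) (h2 : 10 * N ≤ 4958 * P) :
    St 81 3 22 828 1 N P := by
  have hr : N % 3 = 0 ∨ N % 3 = 1 ∨ N % 3 = 2 := by omega
  rcases hr with hr | hr | hr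
  · exact ⟨1, 1, 1, (N - 3 - 255 * P) / 3, by omega⟩
  · exact ⟨1, 2, 2, (N - 1 - 267 * P) / 3, by omega⟩
  · exact ⟨1, 2, 1, (N - 2 - 264 * P) / 3, by omega⟩

lemma top5 (N P : ℕ) (hP : 100 ≤ P) (h1 : 550 * P ≤ 10 * N) (h2 : 10 * N ≤ 648 * P) :
    St 9 3 11 119 1 N P := by
  have hr : N % 3 = 0 ∨ N % 3 = 1 ∨ N % 3 = 2 := by omega
  rcases hr with hr | hr | hr
  · exact ⟨1, 1, 1, (N - 3 - 39 * P) / 3, by omega⟩
  · exact ⟨1, 2, 2, (N - 1 - 51 * P) / 3, by omega⟩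
  · exact ⟨1, 2, 1, (N - 2 - 48 * P) / 3, by omega⟩

lemma top6 (N P : ℕ) (hP : 100 ≤ P) (h1 : 5832 * P ≤ 10 * N) (h2 : 10 * N ≤ 7388 * P) :
    St 81 3 22 828 1 N P := by
  have hr : N % 3 = 0 ∨ N % 3 = 1 ∨ N % 3 = 2 := by omega
  rcases hr with hr | hr | hr
  · exact ⟨2, 2, 2, (N - 0 - 510 * P) / 3, by omega⟩
  · exact ⟨2, 2, 1, (N - 1 - 507 * P) / 3, by omega⟩
  · exact ⟨2, 1, 1, (N - 2 - 498 * P) / 3, by omega⟩

lemma top7 (N P : ℕ) (hP : 100 ≤ P) (h1 : 820 * P ≤ 10 * N) (h2 : 10 * N ≤ 972 * P) :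
    St 9 3 11 119 1 N P := by
  have hr : N % 3 = 0 ∨ N % 3 = 1 ∨ N % 3 = 2 := by omega
  rcases hr with hr | hr | hr
  · exact ⟨2, 2, 2, (N - 0 - 78 * P) / 3, by omega⟩
  · exact ⟨2, 2, 1, (N - 1 - 75 * P) / 3, by omega⟩
  · exact ⟨2, 1, 1, (N - 2 - 66 * P) / 3, by omega⟩

lemma good_a : ∀ k, Good 5 2 55 2475 (7 + k) :=
  good_all (by norm_num) (by decide +kernel) (by decide +kernel) step_a

lemma good_b : ∀ k, Good 3 2 18 352 (9 + k) :=
  good_all (by norm_num) (by decide +kernel) (by decide +kernel) step_b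

lemma good_c : ∀ k, Good 4 1 22 828 (8 + k) :=
  good_all (by norm_num) (by decide +kernel) (by decide +kernel) step_c

lemma good_d : ∀ k, Good 2 1 11 119 (10 + k) :=
  good_all (by norm_num) (by decide +kernel) (by decide +kernel) step_d

lemma level (k N : ℕ) (hp : (N + k) % 2 = 0) (h1 : 8748 * 3 ^ (7 + k) ≤ 10 * N)
    (h2 : 10 * N ≤ 78732 * 3 ^ (7 + k)) : Sum3 N := by
  have ga := good_a k
  have gb := good_b k
  have gc : Good 4 1 22 828 (9 + k) := by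
    have := good_c (k + 1); rwa [show 8 + (k + 1) = 9 + k by ring] at this
  have gd : Good 2 1 11 119 (11 + k) := by
    have := good_d (k + 1); rwa [show 10 + (k + 1) = 11 + k by ring] at this
  have e9 : 3 ^ (9 + k) = 9 * 3 ^ (7 + k) := by ring
  have e11 : 3 ^ (11 + k) = 81 * 3 ^ (7 + k) := by ring
  have hP : 100 ≤ 3 ^ (7 + k) := pow_big (by omega)
  by_cases c0 : 10 * N ≤ 14216 * 3 ^ (7 + k)
  · exact top_St ga (by omega) (top0 N _ hP h1 c0)
  by_cases c1 : 10 * N ≤ 17496 * 3 ^ (7 + k)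
  · exact top_St gb (by omega) (top1 N _ (by omega) (by omega) (by omega))
  by_cases c2 : 10 * N ≤ 21433 * 3 ^ (7 + k)
  · exact top_St ga (by omega) (top2 N _ hP (by omega) c2)
  by_cases c3 : 10 * N ≤ 25812 * 3 ^ (7 + k)
  · exact top_St gb (by omega) (top3 N _ (by omega) (by omega) (by omega))
  by_cases c4 : 10 * N ≤ 44622 * 3 ^ (7 + k)
  · exact top_St gc (by omega) (top4 N _ (by omega) (by omega) (by omega))
  by_cases c5 : 10 * N ≤ 52488 * 3 ^ (7 + k)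
  · exact top_St gd (by omega) (top5 N _ (by omega) (by omega) (by omega))
  by_cases c6 : 10 * N ≤ 66492 * 3 ^ (7 + k)
  · exact top_St gc (by omega) (top6 N _ (by omega) (by omega) (by omega))
  exact top_St gd (by omega) (top7 N _ (by omega) (by omega) (by omega))

lemma ex_level (k0 N : ℕ) (h : 8748 * 3 ^ (7 + k0) ≤ 10 * N) :
    ∃ j, 8748 * 3 ^ (7 + (k0 + 2 * j)) ≤ 10 * N ∧ 10 * N ≤ 78732 * 3 ^ (7 + (k0 + 2 * j)) := by
  have ex : ∃ j, 10 * N ≤ 78732 * 3 ^ (7 + (k0 + 2 * j)) := by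
    refine ⟨N, ?_⟩
    have h1 : N < 3 ^ N := Nat.lt_pow_self (by norm_num)
    have h2 : 3 ^ N ≤ 3 ^ (7 + (k0 + 2 * N)) := Nat.pow_le_pow_right (by norm_num) (by omega)
    omega
  refine ⟨Nat.find ex, ?_, Nat.find_spec ex⟩
  rcases hj : Nat.find ex with _ | j
  · simpa using h
  · have := Nat.find_min ex (m := j) (by omega)
    have e : 3 ^ (7 + (k0 + 2 * (j + 1))) = 9 * 3 ^ (7 + (k0 + 2 * j)) := by ring
    omega

lemma large (N : ℕ) (h : 5739563 ≤ N) : Sum3 N := by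
  rcases Nat.mod_two_eq_zero_or_one N with hp | hp
  · obtain ⟨j, h1, h2⟩ := ex_level 0 N (by norm_num; omega)
    exact level _ N (by omega) h1 h2
  · obtain ⟨j, h1, h2⟩ := ex_level 1 N (by norm_num; omega)
    exact level _ N (by omega) h1 h2

/-! ### Small numbers -/

def addA (X : ℕ) : ℕ → ℕ
  | 0 => X ||| (X <<< 1)
  | m + 1 => force (addA X m) fun Z => force (addW m 3 X) fun Y =>
      (Z ||| (Y <<< (1 + 3 ^ (m + 1))) ||| (Y <<< (2 * 3 ^ (m + 1)))) % 2 ^ 5739563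

lemma addA_sound (X : ℕ) : ∀ (m n : ℕ), (addA X m).testBit n = true →
    ∃ x a, X.testBit x = true ∧ (a = 0 ∨ Antipal a) ∧ n = x + a
  | 0, n, h => by
    rw [addA, Nat.testBit_or, Bool.or_eq_true] at h
    rcases h with h | h
    · exact ⟨n, 0, h, Or.inl rfl, rfl⟩
    · obtain ⟨y, hy, rfl⟩ := tb_shift h
      exact ⟨y, 1, hy, Or.inr ap_one, rfl⟩
  | m + 1, n, h => by
    rw [addA, force_eq, force_eq, Nat.testBit_mod_two_pow] at h
    simp only [Nat.testBit_or, Bool.or_eq_true, Bool.and_eq_true] at h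
    rcases h.2 with (h | h) | h
    · exact addA_sound X m n h
    · obtain ⟨y, hy, rfl⟩ := tb_shift h
      obtain ⟨x, v, hx, hv, rfl⟩ := addW_sound _ _ _ _ hy
      exact ⟨x, _, hx, Or.inr (ap_top (u := 1) hv le_rfl (by norm_num)), by ring⟩
    · obtain ⟨y, hy, rfl⟩ := tb_shift h
      obtain ⟨x, v, hx, hv, rfl⟩ := addW_sound _ _ _ _ hy
      exact ⟨x, _, hx, Or.inr (ap_top (u := 2) hv (by norm_num) le_rfl), by ring⟩

def mask : ℕ :=
  force (addA 1 14) fun X => force (addA X 14) fun Y => addA Y 14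

lemma mask_full :
    (mask ||| (1 <<< 24) ||| (1 <<< 37) ||| (1 <<< 49) ||| (1 <<< 117) ||| (1 <<< 421)) %
      2 ^ 5739563 = 2 ^ 5739563 - 1 := by decide +kernel

lemma small (N : ℕ) (h : N < 5739563) (hN : N ∉ ({24, 37, 49, 117, 421} : Finset ℕ)) :
    ∃ x y z, (x = 0 ∨ Antipal x) ∧ (y = 0 ∨ Antipal y) ∧ (z = 0 ∨ Antipal z) ∧ N = x + y + z := by
  have hb := full_bits mask_full h
  simp only [Nat.testBit_or, Bool.or_eq_true] at hb
  simp only [Finset.mem_insert, Finset.mem_singleton, not_or] at hN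
  have ex : ∀ c, (1 <<< c).testBit N = true → N = c := by
    intro c hc
    obtain ⟨y, hy, rfl⟩ := tb_shift hc
    rw [tb_one hy, zero_add]
  rcases hb with ((((hb | hb) | hb) | hb) | hb) | hb
  · unfold mask at hb
    rw [force_eq, force_eq] at hb
    obtain ⟨n1, x, h1, hx, rfl⟩ := addA_sound _ _ _ hb
    obtain ⟨n2, y, h2, hy, rfl⟩ := addA_sound _ _ _ h1
    obtain ⟨n3, z, h3, hz, rfl⟩ := addA_sound _ _ _ h2
    obtain rfl := tb_one h3
    exact ⟨x, y, z, hx, hy, hz, by ring⟩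
  all_goals (have := ex _ hb; omega)

theorem result (N : ℕ) (hpos : 0 < N) (hN : N ∉ ({24, 37, 49, 117, 421} : Finset ℕ)) :
    Antipal N ∨ (∃ a b, Antipal a ∧ Antipal b ∧ N = a + b) ∨
      ∃ a b c, Antipal a ∧ Antipal b ∧ Antipal c ∧ N = a + b + c := by
  by_cases h : N < 5739563
  · obtain ⟨x, y, z, hx, hy, hz, rfl⟩ := small N h hN
    rcases hx with rfl | hx <;> rcases hy with rfl | hy <;> rcases hz with rfl | hz
    · omega
    · left; simpa using hz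
    · left; simpa using hy
    · right; left; exact ⟨y, z, hy, hz, by ring⟩
    · left; simpa using hx
    · right; left; exact ⟨x, z, hx, hz, by ring⟩
    · right; left; exact ⟨x, y, hx, hy, by ring⟩
    · right; right; exact ⟨x, y, z, hx, hy, hz, rfl⟩
  · right; right; exact large N (by omega)

end Pool.Agent.Results.MP_8ef15a_nt.Three
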